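import Mathlib
import Pool.Agent.Helper47.MA.Asymp
import Pool.Agent.Helper56.MAFinal
import Pool.Agent.Helper9.MANL

set_option autoImplicit false

namespace Pool.Agent.Results.MP_4c8f12_an.NoLocalSolution

/-- The second derivative of `u` at `z`, first in the direction `a` and then in the direction
`b`. -/
noncomputable def second (u : ℝ × ℝ → ℝ) (a b z : ℝ × ℝ) : ℝ :=
  fderiv ℝ (fun w => fderiv ℝ u w a) z b

/-- The Monge-Ampere operator `u_xx u_yy - u_xy ^ 2`. -/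
noncomputable def mongeAmpere (u : ℝ × ℝ → ℝ) (z : ℝ × ℝ) : ℝ :=
  second u (1, 0) (1, 0) z * second u (0, 1) (0, 1) z - (second u (1, 0) (0, 1) z) ^ 2

/-- `K` changes sign at the origin: `K` vanishes at the origin and takes positive and negative
values in every neighbourhood of it. -/
def ChangesSignAtOrigin (K : ℝ × ℝ → ℝ) : Prop :=
  K (0, 0) = 0 ∧ ∀ U : Set (ℝ × ℝ), IsOpen U → (0, 0) ∈ U →
    (∃ z ∈ U, 0 < K z) ∧ (∃ z ∈ U, K z < 0)

/-- `u` is a local solution at the origin, on the open set `U`. -/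
def IsLocalSolution (K : ℝ × ℝ → ℝ) (U : Set (ℝ × ℝ)) (u : ℝ × ℝ → ℝ) : Prop :=
  IsOpen U ∧ (0, 0) ∈ U ∧ ContDiffOn ℝ 2 u U ∧ ∀ z ∈ U, mongeAmpere u z = K z

/-- There is a smooth function that changes sign at the origin and for which the Monge-Ampere
equation has no local solution of class `C^2` at the origin. -/
theorem result : ∃ K : ℝ × ℝ → ℝ, ContDiff ℝ (↑(⊤ : ℕ∞)) K ∧ ChangesSignAtOrigin K ∧
    ¬ ∃ (U : Set (ℝ × ℝ)) (u : ℝ × ℝ → ℝ), IsLocalSolution K U u := by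
  obtain ⟨K, hK, h0, hpos, hneg, hno⟩ := Helper56.MAFinal.final
    (Helper9.MA.nl_of_theta Helper47.MA.thetaStatement)
  refine ⟨K, hK, ⟨h0, ?_⟩, ?_⟩
  · intro U hU h0U
    obtain ⟨ε, hε, hball⟩ := Metric.isOpen_iff.1 hU _ h0U
    constructor
    · obtain ⟨z, hz, hz2⟩ := hpos ε hε
      refine ⟨z, hball ?_, hz2⟩
      rw [Metric.mem_ball, Prod.mk_zero_zero, dist_zero_right]
      exact hz
    · obtain ⟨z, hz, hz2⟩ := hneg ε hε
      refine ⟨z, hball ?_, hz2⟩
      rw [Metric.mem_ball, Prod.mk_zero_zero, dist_zero_right]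
      exact hz
  · rintro ⟨U, u, hU, h0U, hu, hMA⟩
    exact hno ⟨U, u, hU, h0U, hu, hMA⟩

end Pool.Agent.Results.MP_4c8f12_an.NoLocalSolution
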